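import Pool.Agent.helper5.IH.Spec

/-! Project ih (MP_45d809_mp), row TRX: transition systems as functions. -/

set_option autoImplicit false

namespace Pool.Agent.IH
open Finset CT SYM

theorem TRX_pa : ∀ (t : Fin 3) (i : Fin 4), pa t (pa t i) = i ∧ pa t i ≠ i := by
  decide

theorem TRX_ex : ∀ f : Fin 4 → Fin 4, (∀ i, f (f i) = i) → (∀ i, f i ≠ i) →
    ∃ t : Fin 3, ∀ i, pa t i = f i := by
  decide +kernel

theorem TRX (hLBF : SYM.LBF_stmt) : TRX_stmt := by
  intro V _ _ G e hact hadj hsur hinj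
  have hee := hact.1
  let f : V × Fin 4 → G.Dart := fun x => ⟨(x.1, (e x).1), hadj x.1 x.2⟩
  have hf : Function.Bijective f := by
    constructor
    · rintro ⟨u, i⟩ ⟨w, j⟩ h
      have h1 : u = w := congrArg (fun d : G.Dart => d.fst) h
      subst h1
      have h2 : (e (u, i)).1 = (e (u, j)).1 := congrArg (fun d : G.Dart => d.snd) h
      rw [hinj u i j h2]
    · intro d
      obtain ⟨i, hi⟩ := hsur d.fst d.snd d.adj
      refine ⟨(d.fst, i), ?_⟩
      apply SimpleGraph.Dart.ext
      show (d.fst, (e (d.fst, i)).1) = d.toProd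
      rw [hi]
  let ε : V × Fin 4 ≃ G.Dart := Equiv.ofBijective f hf
  have hε1 : ∀ x, (ε x).fst = x.1 := fun x => rfl
  have hε2 : ∀ d, (ε.symm d).1 = d.fst := by
    intro d
    rw [← hε1, Equiv.apply_symm_apply]
  have hεs : ∀ x, (ε x).symm = ε (e x) := by
    intro x
    apply SimpleGraph.Dart.ext
    show ((e x).1, x.1) = ((e x).1, (e (e x)).1)
    rw [hee]
  have hfin : Finite G.Dart := Finite.of_equiv _ ε
  refine ⟨ε.symm, hε2, ?_, ?_⟩
  · intro d
    obtain ⟨x, rfl⟩ := ε.surjective d
    rw [hεs, Equiv.symm_apply_apply, Equiv.symm_apply_apply]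
  · intro τ hτ
    have hτ1 : ∀ u i, (ε.symm (τ (ε (u, i)))).1 = u := by
      intro u i
      rw [hε2, hτ.2.1]
      rfl
    have hkey : ∀ u, ∃ t : Fin 3, ∀ i, pa t i = (ε.symm (τ (ε (u, i)))).2 := by
      intro u
      apply TRX_ex (fun i => (ε.symm (τ (ε (u, i)))).2)
      · intro i
        have h1 : ((u, (ε.symm (τ (ε (u, i)))).2) : V × Fin 4) = ε.symm (τ (ε (u, i))) :=
          Prod.ext (hτ1 u i).symm rfl
        show (ε.symm (τ (ε (u, (ε.symm (τ (ε (u, i)))).2)))).2 = i
        rw [h1, Equiv.apply_symm_apply, hτ.1, Equiv.symm_apply_apply]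
      · intro i h
        have h1 : ε.symm (τ (ε (u, i))) = (u, i) := Prod.ext (hτ1 u i) h
        rw [Equiv.symm_apply_eq] at h1
        exact hτ.2.2 _ h1
    choose t ht using hkey
    have htr : ∀ x, ε.symm (τ (ε x)) = tr t x := by
      rintro ⟨u, i⟩
      exact Prod.ext (hτ1 u i) (ht u i).symm
    refine ⟨t, ?_, ?_⟩
    · intro d
      obtain ⟨x, rfl⟩ := ε.surjective d
      rw [htr, Equiv.symm_apply_apply]
    · have hτε : ∀ x, τ (ε x) = ε (tr t x) := by
        intro x
        rw [← htr, Equiv.apply_symm_apply]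
      have h1 := hLBF G.Dart (fun d => d.symm) τ (fun _ => False)
      have h2 : 2 ^ nci τ = Nat.card {φ : G.Dart → Bool // (∀ d : G.Dart, φ d.symm = φ d) ∧
          (∀ d, φ (τ d) = φ d) ∧ ∀ d : G.Dart, False → φ d = false} := h1.symm
      rw [h2]
      let E : (G.Dart → Bool) ≃ (V × Fin 4 → Bool) :=
        { toFun := fun φ x => φ (ε x)
          invFun := fun ψ d => ψ (ε.symm d)
          left_inv := fun φ => by
            funext d
            show φ (ε (ε.symm d)) = φ d
            rw [Equiv.apply_symm_apply]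
          right_inv := fun ψ => by
            funext x
            show ψ (ε.symm (ε x)) = ψ x
            rw [Equiv.symm_apply_apply] }
      have hE : ∀ φ x, E φ x = φ (ε x) := fun φ x => rfl
      refine Nat.card_congr (Equiv.subtypeEquiv E fun φ => ?_)
      constructor
      · rintro ⟨h3, h4, _⟩
        refine ⟨fun x => ?_, fun x => ?_⟩
        · rw [hE, hE, ← hεs, h3]
        · rw [hE, hE, ← hτε, h4]
      · rintro ⟨h3, h4⟩
        refine ⟨fun d => ?_, fun d => ?_, fun _ h => h.elim⟩
        · obtain ⟨x, rfl⟩ := ε.surjective d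
          rw [hεs]
          exact h3 x
        · obtain ⟨x, rfl⟩ := ε.surjective d
          rw [hτε]
          exact h4 x

end Pool.Agent.IH
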